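import Mathlib
import Pool.Agent.H11.OW.Word

/-!
# Expressibility in ONE fixed group word is undecidable

Full answer to Q1 (there is no algorithm) in a much stronger form: already for `n = 1` and for ONE FIXED word `B`
no algorithm decides, given a word `A`, whether `A` is expressible in `B` on every group. The earlier
results of the library need a list `B_1, …, B_n` of words which grows with the rewriting system that simulates a
Turing machine. So the borderline runs between the words `B` themselves: for some single words (for example
`x y⁻¹`) everything is expressible, and for others the expressible words form a complete recursively enumerable set.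

The result also holds for every single group with a free subgroup of rank two in place of all
groups, and for every class of groups that contains the finite symmetric groups.

## The proof

The word is `B = w · Δ_1 ⋯ Δ_m · S_1(w) ⋯ S_4(w)`, with separate variables for all factors except the variable `w`.
All factors after the first become trivial, on every group, if all their variables are replaced by the same word, and so
every operation `w ↦ w Δ_i` and `w ↦ w S_j(w)` is obtained from `B` by substitution of words which are already
expressible. It is not possible to reach the trivial word: all words that are expressible in `B` have the exponent sums of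
a variable. Therefore the letter operators of the new proof are `z ↦ z · S(z)`, where `S(z)` contains, on the model, a
guarded inverse of `z`.

The model is the set `{x_0, x_1, x_2, d, e} ∪ {Z_a} ∪ {H_b}` of permutations of `K × W² × K`, where `K` is the field with
`2311 = 2 · 3 · 5 · 7 · 11 + 1` elements: the five constants have the orders `2, 3, 5, 7, 11`, and the words read
off the type of an argument by a power. `d` acts on the `Z_a` only and `e` on the `H_b` only, so that the vertex word
`[[z, d], [h, e]]` is trivial unless `z` is of the first type and `h` of the second; the letters act on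
`a` and `b` by adjoint operators. The factors `Δ_i` are trivial on this set and the factors `S_j(w)` do not leave the type
of `w`, hence `B` maps this set to itself. The rewriting system and the recursion-theoretic part are those of the library
(`Pool.Graph.R_seed8.Helper583.System`, `Pool.Graph.R_seed8.Y669.GW`).
-/

set_option autoImplicit false

namespace Pool.Agent.Results.MP_720825_lc.OneWord

/-- A word: a finite string over the alphabet `x_0, x_0⁻¹, x_1, x_1⁻¹, ...`.
The letter `(i, true)` is `x_i` and the letter `(i, false)` is its formal inverse. -/
abbrev Word := List (ℕ × Bool)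

/-- The formal inverse of a word: reverse the string and invert every letter. -/
def wInv (w : Word) : Word := (w.map fun p => (p.1, !p.2)).reverse

/-- Substitution of the words `σ i` for the variables `x_i` in the word `w`. -/
def wSubst (σ : ℕ → Word) (w : Word) : Word :=
  w.flatMap fun p => if p.2 then σ p.1 else wInv (σ p.1)

universe u

/-- The value of the word `w` in the group `G` when `x_i` takes the value `f i`. -/
def wEval {G : Type u} [Group G] (f : ℕ → G) (w : Word) : G :=
  (w.map fun p => if p.2 then f p.1 else (f p.1)⁻¹).prod

/-- Two words are identically equal on `G` if they define the same function on `G`. -/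
def IdenticallyEqual (G : Type u) [Group G] (v w : Word) : Prop :=
  ∀ f : ℕ → G, wEval f v = wEval f w

/-- `Expressible G Bs A`: the word `A` is expressible in the words of the list `Bs` on the
group `G`. This is the smallest set of words that contains every variable, contains the word
`B(W_1, ..., W_k)` whenever `B` is in the list and the words substituted for the variables
of `B` are in the set, and is closed under identical equality on `G`. -/
inductive Expressible (G : Type u) [Group G] (Bs : List Word) : Word → Prop
  | var (j : ℕ) : Expressible G Bs [(j, true)]
  | app (B : Word) (hB : B ∈ Bs) (W : ℕ → Word) (hW : ∀ p ∈ B, Expressible G Bs (W p.1)) :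
      Expressible G Bs (wSubst W B)
  | congr (W W' : Word) (hW : Expressible G Bs W) (h : IdenticallyEqual G W W') :
      Expressible G Bs W'

/-- The group `G` has a free subgroup of rank two. -/
def HasFreeSubgroup (G : Type u) [Group G] : Prop :=
  ∃ φ : FreeGroup (Fin 2) →* G, Function.Injective φ

/-- The class `C` of groups contains, up to isomorphism, all finite symmetric groups. -/
def ContainsSymmetric (C : (G : Type u) → Group G → Prop) : Prop :=
  ∀ n : ℕ, ∃ (G : Type u) (h : Group G), C G h ∧ Nonempty (G ≃* Equiv.Perm (Fin n))

section proof

open Pool.Agent.Helper583 (ClosedFor)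
open Pool.Agent.H11.OW
open Pool.Agent.Y669.GW (diag diag_insep reduce identicallyEqual_congr identicallyEqual_of_free
  exists_lift_injective)

theorem good_of_expressible {s : Type u} (α : Bool → s → s) (Bs : List Word)
    (hBs : ∀ B ∈ Bs, Good α B) {A : Word} (h : Expressible (Equiv.Perm (VV s)) Bs A) :
    Good α A := by
  induction h with
  | var j => exact Good.var α j
  | app B hB W _ ih => exact (hBs B hB).subst α W ih
  | congr W W' _ h ih => exact ih.congr α h

theorem expressible_congr.{v} {G : Type u} {H : Type v} [Group G] [Group H] (e : G ≃* H)
    {Bs : List Word} {A : Word} (h : Expressible G Bs A) : Expressible H Bs A := by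
  induction h with
  | var j => exact Expressible.var j
  | app B hB W _ ih => exact Expressible.app B hB W ih
  | congr W W' _ h ih => exact Expressible.congr W W' ih (identicallyEqual_congr e h)

theorem expressible_of_free.{v} {G : Type u} [Group G] {v : ℕ → G}
    (hv : ∀ x : FreeGroup ℕ, FreeGroup.lift v x = 1 → x = 1) {H : Type v} [Group H]
    {Bs : List Word} {A : Word} (h : Expressible G Bs A) : Expressible H Bs A := by
  induction h with
  | var j => exact Expressible.var j
  | app B hB W _ ih => exact Expressible.app B hB W ih
  | congr W W' _ h ih => exact Expressible.congr W W' ih (identicallyEqual_of_free hv h)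

end proof

open Pool.Agent.Helper583 (ClosedFor) in
open Pool.Agent.H11.OW in
open Pool.Agent.Y669.GW (diag diag_insep reduce identicallyEqual_congr identicallyEqual_of_free
  exists_lift_injective) in
/-- **One fixed word.** (0) No algorithm decides, given words `A, B_1, …, B_n` with `n ≥ 1`, whether `A` is expressible in
`B_1, …, B_n` on every group. Moreover there is ONE fixed word `B` such that

* (1) for every recursively enumerable set `W` there is a computable function `f` from the natural
  numbers to words in the seven variables `x_0, …, x_6` such that `n` is in `W` if and only if the word `f n` is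
  expressible in `B`
  on every group, and if and only if it is expressible in `B` on `G`, for every single group `G`
  with a free subgroup of rank two;
* (2) no algorithm decides, given a word `A`, whether `A` is expressible in `B` on every group, and the words for which
  this is false are not recursively enumerable;
* (3) the same holds for every single group `G` with a free subgroup of rank two;
* (4) no decidable set of words contains all words which are expressible in `B` on every group,
  and only words which are expressible in it on all finite symmetric groups;
* (5) for every class `C` of groups which contains the finite symmetric groups (all groups, all finite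
  groups, all residually finite groups, ...), no algorithm decides, given a word `A`, whether `A` is
  expressible in `B` on every group of the class. -/
theorem result :
    (¬ ComputablePred fun p : Word × Word × List Word =>
      ∀ (G : Type u) [Group G], Expressible G (p.2.1 :: p.2.2) p.1) ∧
    ∃ B : Word,
    (∀ W : ℕ → Prop, REPred W → ∃ f : ℕ → Word, Computable f ∧ (∀ n, ∀ p ∈ f n, p.1 < 7) ∧
      (∀ n, W n ↔ ∀ (G : Type u) [Group G], Expressible G [B] (f n)) ∧
      ∀ (G : Type u) [Group G], HasFreeSubgroup G → ∀ n, W n ↔ Expressible G [B] (f n)) ∧
    ((¬ ComputablePred fun A : Word => ∀ (G : Type u) [Group G], Expressible G [B] A) ∧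
      ¬ REPred fun A : Word => ¬ ∀ (G : Type u) [Group G], Expressible G [B] A) ∧
    (∀ (G : Type u) [Group G], HasFreeSubgroup G →
      (¬ ComputablePred fun A : Word => Expressible G [B] A) ∧
        ¬ REPred fun A : Word => ¬ Expressible G [B] A) ∧
    (∀ P : Word → Prop,
      (∀ A, (∀ (G : Type u) [Group G], Expressible G [B] A) → P A) →
      (∀ A, P A → ∀ n : ℕ, Expressible (Equiv.Perm (Fin n)) [B] A) → ¬ ComputablePred P) ∧
    ∀ C : (G : Type u) → Group G → Prop, ContainsSymmetric C →
      ¬ ComputablePred fun A : Word =>
        ∀ (G : Type u) (h : Group G), C G h → @Expressible G h [B] A := by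
  obtain ⟨B, t, A, ht, ht7, hA, h0, hup, hfin, hinf⟩ := package.{u}
  have gs : ∀ {s : Type u} (α : Bool → s → s), Good α B → ∀ B' ∈ [B], Good α B' := by
    intro s α h B' hB'
    rw [List.mem_singleton.1 hB']
    exact h
  have up : ∀ n, A n → ∀ (G : Type u) [Group G], Expressible G [B] (t n) := by
    intro n hn G _
    exact hup n hn G (Expressible G [B]) ⟨Expressible.var,
      fun B' hB' σ hσ => Expressible.app B' hB' σ fun p _ => hσ p.1,
      fun W W' hW hc => Expressible.congr W W' hW hc⟩
  have fin : ∀ n, 1 ∈ diag n → ∃ k : ℕ, ¬ Expressible (Equiv.Perm (Fin k)) [B] (t n) := by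
    intro n hn
    obtain ⟨s, hs, α, h1, h2⟩ := hfin n hn
    obtain ⟨k, ⟨e⟩⟩ := exists_perm s
    exact ⟨k, fun h => h2 (good_of_expressible α _ (gs α h1) (expressible_congr e.symm h))⟩
  have hA1 : ∀ n, 1 ∈ diag n → ¬ A n := by
    intro n hn hAn
    obtain ⟨s, hs, α, h1, h2⟩ := hfin n hn
    exact h2 (good_of_expressible α _ (gs α h1) (up n hAn _))
  have iff : ∀ n, A n ↔ ∀ (G : Type u) [Group G], Expressible G [B] (t n) := by
    refine fun n => ⟨up n, fun h => ?_⟩
    by_contra hn
    obtain ⟨s, _, α, h1, h2⟩ := hinf n hn
    exact h2 (good_of_expressible α _ (gs α h1) (h _))
  have iffG : ∀ (G : Type u) [Group G], HasFreeSubgroup G → ∀ n,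
      A n ↔ Expressible G [B] (t n) := by
    rintro G _ ⟨φ, hφ⟩ n
    refine ⟨fun h => up n h G, fun h => ?_⟩
    obtain ⟨v, hv⟩ := exists_lift_injective φ hφ
    exact (iff n).2 fun H _ => expressible_of_free hv h
  have hWc : ¬ ComputablePred A := fun hc => diag_insep A hc h0 hA1
  have hAc : ¬ REPred fun n => ¬ A n := fun h =>
    hWc (ComputablePred.computable_iff_re_compl_re'.2 ⟨hA, h⟩)
  have sep : ∀ P : Word → Prop,
      (∀ A, (∀ (G : Type u) [Group G], Expressible G [B] A) → P A) →
      (∀ A, P A → ∀ n : ℕ, Expressible (Equiv.Perm (Fin n)) [B] A) → ¬ ComputablePred P := by
    intro P h1 h2 hP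
    obtain ⟨hd, hc⟩ := hP
    refine diag_insep (fun n => P (t n)) ⟨fun n => hd (t n), hc.comp ht⟩
      (fun n hn => h1 _ (up n (h0 n hn))) (fun n hn hPn => ?_)
    obtain ⟨k, hk⟩ := fin n hn
    exact hk (h2 _ hPn k)
  have main : ¬ ComputablePred fun A : Word => ∀ (G : Type u) [Group G], Expressible G [B] A := by
    rintro ⟨hd, hc⟩
    refine hWc ⟨fun n => decidable_of_iff _ (iff n).symm, ?_⟩
    refine (hc.comp ht).of_eq fun n => ?_
    exact decide_eq_decide.2 (iff n).symm
  refine ⟨?_, B, ?_, ⟨main, ?_⟩, ?_, sep, ?_⟩
  · rintro ⟨hd, hc⟩
    refine main ⟨fun A => hd (A, B, []), ?_⟩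
    exact hc.comp (Computable.pair Computable.id (Computable.const (B, [])))
  · intro W hW
    obtain ⟨g, hg, hWg⟩ := reduce hA h0 hA1 hW
    exact ⟨fun n => t (g n), ht.comp hg, fun n => ht7 _, fun n => (hWg n).trans (iff (g n)),
      fun G _ hG n => (hWg n).trans (iffG G hG (g n))⟩
  · intro hre
    refine hAc ?_
    have h1 : REPred fun n => ¬ ∀ (G : Type u) [Group G], Expressible G [B] (t n) :=
      Partrec.comp hre ht
    exact h1.of_eq fun n => by rw [iff n]
  · intro G _ hG
    have h2 : ¬ REPred fun A : Word => ¬ Expressible G [B] A := by
      intro hre
      refine hAc ?_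
      have h1 : REPred fun n => ¬ Expressible G [B] (t n) := Partrec.comp hre ht
      exact h1.of_eq fun n => by rw [iffG G hG n]
    exact ⟨fun h => h2 h.not.to_re, h2⟩
  · intro C hC
    refine sep _ (fun A h G hG _ => h G) (fun A h n => ?_)
    obtain ⟨G, hG, hCG, ⟨e⟩⟩ := hC n
    exact expressible_congr e (h G hG hCG)

end Pool.Agent.Results.MP_720825_lc.OneWord
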